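import Pool.Agent.H37.CV.Targets

/-!
# GC: the greatest common divisor (MP_347b49_nt)
-/

set_option autoImplicit false

open NumberField

namespace Pool.Agent.H3.CV

open Pool.Agent.H37.CV Pool.Agent.H28.RC Pool.Agent.H25.HK

section

variable {K : Type} [Field K] [NumberField K]

theorem nm_mul (I J : Ideal (𝓞 K)) : nm (I * J) = nm I * nm J := by
  unfold nm
  rw [map_mul]
  push_cast
  rfl

theorem nm_idS (S : Finset (PrI K)) : nm (idS S) = nS np S := by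
  unfold nm idS nS np nm
  rw [map_prod]
  push_cast
  rfl

theorem fin_pf {I : Ideal (𝓞 K)} (hI : I ≠ ⊥) : {P : PrI K | I ≤ P.1}.Finite := by
  refine Set.Finite.of_finite_image (f := Subtype.val) ?_ Subtype.val_injective.injOn
  refine (Ideal.finite_factors hI |>.image fun v => v.asIdeal).subset ?_
  rintro _ ⟨P, hP, rfl⟩
  exact ⟨⟨P.1, P.2.1, P.2.2⟩, Ideal.dvd_iff_le.2 hP, rfl⟩

theorem mem_pf {I : Ideal (𝓞 K)} (hI : I ≠ ⊥) (P : PrI K) : P ∈ pf I ↔ I ≤ P.1 := by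
  unfold pf
  rw [dif_pos (fin_pf hI)]
  simp

theorem idS_ne (S : Finset (PrI K)) : idS S ≠ ⊥ := by
  unfold idS
  exact Finset.prod_ne_zero_iff.2 fun P _ => P.2.2

theorem idS_dvd {S : Finset (PrI K)} {I : Ideal (𝓞 K)} (h : ∀ P ∈ S, I ≤ P.1) : idS S ∣ I := by
  have h1 : idS S = ∏ p ∈ S.map ⟨Subtype.val, Subtype.val_injective⟩, p := by
    rw [Finset.prod_map]
    rfl
  rw [h1]
  refine Finset.prod_primes_dvd I ?_ ?_
  · intro p hp
    obtain ⟨P, hP, rfl⟩ := Finset.mem_map.1 hp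
    exact (Ideal.prime_iff_isPrime P.2.2).2 P.2.1
  · intro p hp
    obtain ⟨P, hP, rfl⟩ := Finset.mem_map.1 hp
    exact Ideal.dvd_iff_le.2 (h P hP)

theorem idS_le {S : Finset (PrI K)} {P : PrI K} (h : idS S ≤ P.1) : P ∈ S := by
  have hP : Prime P.1 := (Ideal.prime_iff_isPrime P.2.2).2 P.2.1
  have h1 : P.1 ∣ idS S := Ideal.dvd_iff_le.2 h
  unfold idS at h1
  obtain ⟨Q, hQ, h2⟩ := (hP.dvd_finsetProd_iff _).1 h1
  have h3 : Q.1 ≤ P.1 := Ideal.dvd_iff_le.1 h2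
  have hQm : Q.1.IsMaximal := Q.2.1.isMaximal Q.2.2
  have h4 : Q.1 = P.1 := hQm.eq_of_le P.2.1.ne_top h3
  rwa [← Subtype.ext h4]

open scoped Classical in
theorem idS_union {S T : Finset (PrI K)} (h : Disjoint S T) : idS (S ∪ T) = idS S * idS T := by
  unfold idS
  rw [Finset.prod_union h]

end

open scoped Classical in
/-- GC -/
theorem pf_GC : T_GC := by
  intro K _ _ S T
  refine ⟨nm_idS S, ?_⟩
  intro I J hI hJ hIJ
  have hno : ∀ P : PrI K, I ≤ P.1 → J ≤ P.1 → False := by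
    intro P h1 h2
    have h3 : I ⊔ J ≤ P.1 := sup_le h1 h2
    rw [hIJ, top_le_iff] at h3
    exact P.2.1.ne_top h3
  have hdis : Disjoint (pf I) (pf J) := by
    rw [Finset.disjoint_left]
    intro P h1 h2
    exact hno P ((mem_pf hI P).1 h1) ((mem_pf hJ P).1 h2)
  refine ⟨hdis, ?_⟩
  obtain ⟨I', hI'⟩ := idS_dvd (S := S ∩ pf I) (I := I) fun P hP =>
    (mem_pf hI P).1 (Finset.mem_inter.1 hP).2
  obtain ⟨J', hJ'⟩ := idS_dvd (S := T ∩ pf J) (I := J) fun P hP =>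
    (mem_pf hJ P).1 (Finset.mem_inter.1 hP).2
  have hI'0 : I' ≠ ⊥ := by
    rintro rfl
    exact hI (by rw [hI', Ideal.mul_bot])
  have hJ'0 : J' ≠ ⊥ := by
    rintro rfl
    exact hJ (by rw [hJ', Ideal.mul_bot])
  have hII' : I ≤ I' := by
    conv_lhs => rw [hI']
    exact Ideal.mul_le_right
  have hJJ' : J ≤ J' := by
    conv_lhs => rw [hJ']
    exact Ideal.mul_le_right
  obtain ⟨W, hW⟩ : ∃ W : Finset (PrI K), W = (S ∩ T) \ (pf I ∪ pf J) := ⟨_, rfl⟩
  obtain ⟨S₁, hS₁⟩ : ∃ S₁ : Finset (PrI K), S₁ = (S \ pf I) \ W := ⟨_, rfl⟩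
  obtain ⟨T₁, hT₁⟩ : ∃ T₁ : Finset (PrI K), T₁ = (T \ pf J) \ W := ⟨_, rfl⟩
  have hS : idS S = idS (S ∩ pf I) * (idS W * idS S₁) := by
    have h1 : Disjoint W S₁ := by
      rw [hS₁]
      exact Finset.disjoint_sdiff
    have h2 : W ∪ S₁ = S \ pf I := by
      rw [hS₁]
      refine Finset.union_sdiff_of_subset ?_
      rw [hW]
      intro P hP
      simp only [Finset.mem_sdiff, Finset.mem_inter, Finset.mem_union, not_or] at hP ⊢
      exact ⟨hP.1.1, hP.2.1⟩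
    have h3 : Disjoint (S ∩ pf I) (S \ pf I) := by
      rw [Finset.disjoint_left]
      intro P h4 h5
      exact (Finset.mem_sdiff.1 h5).2 (Finset.mem_inter.1 h4).2
    have h4 : S = (S ∩ pf I) ∪ (S \ pf I) := by
      ext P
      simp only [Finset.mem_union, Finset.mem_inter, Finset.mem_sdiff]
      tauto
    rw [← idS_union h1, h2, ← idS_union h3, ← h4]
  have hT : idS T = idS (T ∩ pf J) * (idS W * idS T₁) := by
    have h1 : Disjoint W T₁ := by
      rw [hT₁]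
      exact Finset.disjoint_sdiff
    have h2 : W ∪ T₁ = T \ pf J := by
      rw [hT₁]
      refine Finset.union_sdiff_of_subset ?_
      rw [hW]
      intro P hP
      simp only [Finset.mem_sdiff, Finset.mem_inter, Finset.mem_union, not_or] at hP ⊢
      exact ⟨hP.1.2, hP.2.2⟩
    have h3 : Disjoint (T ∩ pf J) (T \ pf J) := by
      rw [Finset.disjoint_left]
      intro P h4 h5
      exact (Finset.mem_sdiff.1 h5).2 (Finset.mem_inter.1 h4).2
    have h4 : T = (T ∩ pf J) ∪ (T \ pf J) := by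
      ext P
      simp only [Finset.mem_union, Finset.mem_inter, Finset.mem_sdiff]
      tauto
    rw [← idS_union h1, h2, ← idS_union h3, ← h4]
  have hcop : idS S₁ * J' ⊔ idS T₁ * I' = ⊤ := by
    by_contra hne
    obtain ⟨P, hP, hle⟩ := Ideal.exists_le_maximal _ hne
    have h1 : idS S₁ * J' ≤ P := le_sup_left.trans hle
    have h2 : idS T₁ * I' ≤ P := le_sup_right.trans hle
    have hP0 : P ≠ ⊥ := by
      rintro rfl
      rw [le_bot_iff, Ideal.mul_eq_bot] at h1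
      rcases h1 with h1 | h1
      · exact idS_ne _ h1
      · exact hJ'0 h1
    obtain ⟨Q, hQ⟩ : ∃ Q : PrI K, Q.1 = P := ⟨⟨P, hP.isPrime, hP0⟩, rfl⟩
    rw [← hQ] at h1 h2
    have hQp := Q.2.1
    have k1 : Q ∈ S₁ ∨ Q ∈ pf J := by
      rcases hQp.mul_le.1 h1 with h3 | h3
      · exact Or.inl (idS_le h3)
      · exact Or.inr ((mem_pf hJ Q).2 (hJJ'.trans h3))
    have k2 : Q ∈ T₁ ∨ Q ∈ pf I := by
      rcases hQp.mul_le.1 h2 with h3 | h3
      · exact Or.inl (idS_le h3)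
      · exact Or.inr ((mem_pf hI Q).2 (hII'.trans h3))
    have k3 : ¬ (Q ∈ pf I ∧ Q ∈ pf J) := fun h =>
      hno Q ((mem_pf hI Q).1 h.1) ((mem_pf hJ Q).1 h.2)
    rw [hS₁, hW] at k1
    rw [hT₁, hW] at k2
    simp only [Finset.mem_sdiff, Finset.mem_inter, Finset.mem_union, not_or, not_and] at k1 k2
    tauto
  refine ⟨idS (S ∩ pf I) * idS (T ∩ pf J) * idS W, idS S₁ * J', idS T₁ * I', ?_, ?_, ?_, hcop, ?_⟩
  · rw [Ne, Ideal.mul_eq_bot, Ideal.mul_eq_bot]
    push Not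
    exact ⟨⟨idS_ne _, idS_ne _⟩, idS_ne _⟩
  · rw [hS]
    conv_lhs => rw [hJ']
    ring
  · rw [hT]
    conv_lhs => rw [hI']
    ring
  · rw [nm_mul, nm_mul, nm_idS, nm_idS, nm_idS, hW]
    unfold gg
    congr <;> exact Subsingleton.elim _ _

end Pool.Agent.H3.CV
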