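import Pool.Agent.H37.CV.Targets

/-!
# RL: short relations (MP_347b49_nt)
-/

set_option autoImplicit false

open NumberField

namespace Pool.Agent.H3.CV

open Pool.Agent.H37.CV Pool.Agent.H28.RC Pool.Agent.H25.HK

/-- RL -/
theorem pf_RL (hSR : T_SR) (hRR : T_RR) : T_RL := by
  intro K _ _ _
  obtain ⟨c, hc, h⟩ := hSR K
  refine ⟨c, hc, fun q hq d hd p hp hlt => ?_⟩
  obtain ⟨h1, h2, h3, h4, h5, h6⟩ := hp
  obtain ⟨a, b, ha, hb, ha', hb', hab, hrel⟩ := h q hq d hd p.1 p.2 h1 h2 h4 h5 h6 hlt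
  obtain ⟨y₁, y₂, hy, hcg⟩ := hRR K q hq p.1 p.2 a b h1 h2 h3 ha hb ha' hb' hrel
  exact ⟨y₁, y₂, hy, fun he => hcg (he ▸ hab)⟩

end Pool.Agent.H3.CV
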