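import Pool.Agent.H37.CV.Targets

/-!
# RR: real relations come from ideals of the maximal real subfield (MP_347b49_nt)
-/

set_option autoImplicit false

open NumberField

namespace Pool.Agent.H3.CV

open Pool.Agent.H37.CV Pool.Agent.H28.RC Pool.Agent.H25.HK

/-- norms of congruent integers are congruent -/
theorem norm_congr {L : Type} [Field L] [NumberField L] {x y : 𝓞 L} {q : ℕ}
    (h : x - y ∈ Ideal.span {(q : 𝓞 L)}) :
    (q : ℤ) ∣ Algebra.norm ℤ x - Algebra.norm ℤ y := by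
  obtain ⟨c, hc⟩ := Ideal.mem_span_singleton'.1 h
  have hx : x = y + c * (q : 𝓞 L) := by rw [hc]; ring
  have b := Module.Free.chooseBasis ℤ (𝓞 L)
  classical
  rw [Algebra.norm_eq_matrix_det b, Algebra.norm_eq_matrix_det b,
    ← ZMod.intCast_zmod_eq_zero_iff_dvd, Int.cast_sub, sub_eq_zero]
  have h1 : ∀ M : Matrix (Module.Free.ChooseBasisIndex ℤ (𝓞 L))
      (Module.Free.ChooseBasisIndex ℤ (𝓞 L)) ℤ,
      ((M.det : ℤ) : ZMod q) = (M.map (Int.castRingHom (ZMod q))).det := fun M => by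
    exact (Int.castRingHom (ZMod q)).map_det M
  rw [h1, h1]
  congr 1
  have h2 : Algebra.leftMulMatrix b x = Algebra.leftMulMatrix b y +
      (q : ℤ) • Algebra.leftMulMatrix b c := by
    rw [hx, map_add]
    congr 1
    have e : c * (q : 𝓞 L) = (q : ℤ) • c := by
      rw [zsmul_eq_mul, mul_comm]
      push_cast
      rfl
    rw [e, map_zsmul]
  rw [h2]
  ext i j
  simp only [Matrix.map_apply, Matrix.add_apply, Matrix.smul_apply, smul_eq_mul, map_add, map_mul]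
  simp

/-- integers of `K⁺` which are divisible by `q` in `K` -/
theorem mem_real {K : Type} [Field K] [NumberField K] {q : ℕ} (hq : q ≠ 0) {x : 𝓞 (Kp K)}
    (h : algebraMap (𝓞 (Kp K)) (𝓞 K) x ∈ Ideal.span {(q : 𝓞 K)}) :
    x ∈ Ideal.span {(q : 𝓞 (Kp K))} := by
  obtain ⟨c, hc⟩ := Ideal.mem_span_singleton'.1 h
  have hq0 : (q : Kp K) ≠ 0 := by exact_mod_cast hq
  have hq1 : (q : K) ≠ 0 := by exact_mod_cast hq
  have h1 : algebraMap (Kp K) K ((x : Kp K) / (q : Kp K)) = (c : K) := by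
    have h2 := congrArg (algebraMap (𝓞 K) K) hc
    have h3 : (c : K) * (q : K) = algebraMap (Kp K) K (x : Kp K) := by
      rw [map_mul, map_natCast, ← IsScalarTower.algebraMap_apply,
        IsScalarTower.algebraMap_apply (𝓞 (Kp K)) (Kp K) K] at h2
      exact h2
    rw [map_div₀, ← h3, map_natCast, mul_div_assoc, div_self hq1, mul_one]
  have h2 : IsIntegral ℤ ((x : Kp K) / (q : Kp K)) := by
    have h3 : IsIntegral ℤ (algebraMap (Kp K) K ((x : Kp K) / (q : Kp K))) := by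
      rw [h1]
      exact RingOfIntegers.isIntegral_coe c
    exact (isIntegral_algebraMap_iff (algebraMap (Kp K) K).injective).1 h3
  obtain ⟨w, hw⟩ : ∃ w : 𝓞 (Kp K), algebraMap (𝓞 (Kp K)) (Kp K) w = (x : Kp K) / (q : Kp K) :=
    ⟨⟨(x : Kp K) / (q : Kp K), h2⟩, rfl⟩
  refine Ideal.mem_span_singleton'.2 ⟨w, RingOfIntegers.ext ?_⟩
  have h3 : algebraMap (𝓞 (Kp K)) (Kp K) (w * (q : 𝓞 (Kp K))) = x := by
    rw [map_mul, map_natCast, hw]
    field_simp
  exact h3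

theorem nm_map {K : Type} [Field K] [NumberField K] [IsCMField K] (y : Ideal (𝓞 (Kp K))) :
    Ideal.absNorm (y.map (algebraMap (𝓞 (Kp K)) (𝓞 K))) = Ideal.absNorm y ^ 2 := by
  rw [Ideal.absNorm_algebraMap, ← IsFractionRing.finrank_eq (𝓞 (Kp K)) (Kp K) (𝓞 K) K,
    Algebra.IsQuadraticExtension.finrank_eq_two]

/-- RR -/
theorem pf_RR : T_RR := by
  intro K _ _ _ q hq I J a b hI hJ hIJ ha hb haq hbq hrel
  have hinj : Function.Injective (algebraMap (𝓞 (Kp K)) (𝓞 K)) :=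
    RingOfIntegers.algebraMap.injective (Kp K) K
  obtain ⟨g, hg⟩ : ∃ g : Ideal (𝓞 (Kp K)), g = Ideal.span {a} ⊔ Ideal.span {b} := ⟨_, rfl⟩
  have hag : Ideal.span {a} ≤ g := hg ▸ le_sup_left
  have hbg : Ideal.span {b} ≤ g := hg ▸ le_sup_right
  have ha0 : Ideal.span {a} ≠ ⊥ := by rwa [Ne, Ideal.span_singleton_eq_bot]
  have hb0 : Ideal.span {b} ≠ ⊥ := by rwa [Ne, Ideal.span_singleton_eq_bot]
  have hg0 : g ≠ ⊥ := fun h => ha0 (le_bot_iff.1 (h ▸ hag))
  obtain ⟨y₁, hy₁⟩ := Ideal.dvd_iff_le.2 hag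
  obtain ⟨y₂, hy₂⟩ := Ideal.dvd_iff_le.2 hbg
  have hy₁0 : y₁ ≠ ⊥ := by
    rintro rfl
    exact ha0 (by rw [hy₁, Ideal.mul_bot])
  have hy₂0 : y₂ ≠ ⊥ := by
    rintro rfl
    exact hb0 (by rw [hy₂, Ideal.mul_bot])
  have hcop : y₁ ⊔ y₂ = ⊤ := by
    have h1 : g * (y₁ ⊔ y₂) = g * ⊤ := by
      rw [Ideal.mul_sup, ← hy₁, ← hy₂, ← hg, Ideal.mul_top]
    exact mul_left_cancel₀ hg0 h1
  obtain ⟨f, hf⟩ : ∃ f, f = algebraMap (𝓞 (Kp K)) (𝓞 K) := ⟨_, rfl⟩
  rw [← hf] at hrel haq hbq hinj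
  have hmb : ∀ y : Ideal (𝓞 (Kp K)), y ≠ ⊥ → y.map f ≠ ⊥ := fun y hy h =>
    hy ((Ideal.map_eq_bot_iff_of_injective hinj).1 h)
  have hcop' : y₁.map f ⊔ y₂.map f = ⊤ := by
    rw [← Ideal.map_sup, hcop, Ideal.map_top]
  have hrel' : y₂.map f * I = y₁.map f * J := by
    have h1 : g.map f * (y₂.map f * I) = g.map f * (y₁.map f * J) := by
      rw [← mul_assoc, ← mul_assoc, ← Ideal.map_mul, ← Ideal.map_mul, ← hy₁, ← hy₂,
        Ideal.map_span, Ideal.map_span, Set.image_singleton, Set.image_singleton]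
      exact hrel
    exact mul_left_cancel₀ (hmb g hg0) h1
  have c1 : IsCoprime (y₁.map f) (y₂.map f) := Ideal.isCoprime_iff_sup_eq.2 hcop'
  have c2 : IsCoprime I J := Ideal.isCoprime_iff_sup_eq.2 hIJ
  have d1 : I ∣ y₁.map f := c2.dvd_of_dvd_mul_right (Dvd.intro_left _ hrel')
  have d2 : y₁.map f ∣ I := c1.dvd_of_dvd_mul_left (Dvd.intro _ hrel'.symm)
  have d3 : J ∣ y₂.map f := c2.symm.dvd_of_dvd_mul_right (Dvd.intro_left _ hrel'.symm)
  have d4 : y₂.map f ∣ J := c1.symm.dvd_of_dvd_mul_left (Dvd.intro _ hrel')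
  have e1 : I = y₁.map f := le_antisymm (Ideal.dvd_iff_le.1 d2) (Ideal.dvd_iff_le.1 d1)
  have e2 : J = y₂.map f := le_antisymm (Ideal.dvd_iff_le.1 d4) (Ideal.dvd_iff_le.1 d3)
  have hnm : ∀ y : Ideal (𝓞 (Kp K)), nm (y.map f) = nm y ^ 2 := by
    intro y
    unfold nm
    rw [hf, nm_map]
    push_cast
    rfl
  refine ⟨y₁, y₂, ⟨hy₁0, hy₂0, by rw [e1, hf], by rw [e2, hf], ?_, ?_⟩, ?_⟩
  · show nm I = _
    rw [e1, hnm]
  · show nm J = _
    rw [e2, hnm]
  intro hab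
  have hab' : algebraMap (𝓞 (Kp K)) (𝓞 K) (a - b) ∈ Ideal.span {(q : 𝓞 K)} := by
    rw [map_sub]
    exact hab
  have h1 := norm_congr (mem_real hq.ne_zero hab')
  -- the norm of `a` is prime to `q`
  have h2 : ¬ (q : ℤ) ∣ Algebra.norm ℤ a := by
    intro hd
    have h3 : (1 : 𝓞 K) ∈ Ideal.span {f a} ⊔ qi K q := by rw [haq]; trivial
    obtain ⟨x, hx, y, hy, hxy⟩ := Submodule.mem_sup.1 h3
    obtain ⟨u, hu⟩ := Ideal.mem_span_singleton'.1 hx
    have h4 : 1 - u * f a ∈ Ideal.span {(q : 𝓞 K)} := by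
      have e : 1 - u * f a = y := by rw [hu, ← hxy]; ring
      rw [e]
      exact hy
    have h5 := norm_congr h4
    rw [map_one, map_mul] at h5
    have h6 : Algebra.norm ℤ (f a) = Algebra.norm ℤ (f a) := rfl
    have h7 : (Algebra.norm ℤ (f a)).natAbs = (Algebra.norm ℤ a).natAbs ^ 2 := by
      rw [← Ideal.absNorm_span_singleton, ← Ideal.absNorm_span_singleton, ← nm_map,
        Ideal.map_span, Set.image_singleton, hf]
    have h8 : (q : ℤ) ∣ Algebra.norm ℤ (f a) := by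
      rw [← Int.dvd_natAbs, h7]
      push_cast
      rw [sq_abs]
      exact Dvd.dvd.pow hd two_ne_zero
    have h9 : (q : ℤ) ∣ 1 := by
      have := dvd_add h5 (Dvd.dvd.mul_left h8 (Algebra.norm ℤ u))
      rwa [sub_add_cancel] at this
    have h10 : (q : ℕ) ∣ 1 := by exact_mod_cast h9
    exact hq.one_lt.ne' (Nat.dvd_one.1 h10)
  have hqp : Prime (q : ℤ) := Nat.prime_iff_prime_int.1 hq
  have h3 : (Algebra.norm ℤ a).natAbs = Ideal.absNorm g * Ideal.absNorm y₁ := by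
    rw [← Ideal.absNorm_span_singleton, hy₁, map_mul]
  have h4 : (Algebra.norm ℤ b).natAbs = Ideal.absNorm g * Ideal.absNorm y₂ := by
    rw [← Ideal.absNorm_span_singleton, hy₂, map_mul]
  have h5 : ¬ (q : ℤ) ∣ (Ideal.absNorm g : ℤ) := by
    intro hd
    apply h2
    rw [← Int.dvd_natAbs, h3]
    push_cast
    exact Dvd.dvd.mul_right hd _
  have h6 : (q : ℤ) ∣ (Ideal.absNorm g : ℤ) * (Ideal.absNorm y₁ - Ideal.absNorm y₂) ∨
      (q : ℤ) ∣ (Ideal.absNorm g : ℤ) * (Ideal.absNorm y₁ + Ideal.absNorm y₂) := by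
    have k1 : ((Ideal.absNorm g * Ideal.absNorm y₁ : ℕ) : ℤ) = |Algebra.norm ℤ a| := by
      rw [← h3, Int.natCast_natAbs]
    have k2 : ((Ideal.absNorm g * Ideal.absNorm y₂ : ℕ) : ℤ) = |Algebra.norm ℤ b| := by
      rw [← h4, Int.natCast_natAbs]
    push_cast at k1 k2
    rw [mul_sub, mul_add, k1, k2]
    rcases abs_cases (Algebra.norm ℤ a) with ⟨l1, -⟩ | ⟨l1, -⟩ <;>
      rcases abs_cases (Algebra.norm ℤ b) with ⟨l2, -⟩ | ⟨l2, -⟩ <;> rw [l1, l2]
    · exact Or.inl h1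
    · refine Or.inr ?_
      have e : Algebra.norm ℤ a + -Algebra.norm ℤ b = Algebra.norm ℤ a - Algebra.norm ℤ b := by
        ring
      rw [e]
      exact h1
    · refine Or.inr ?_
      have e : -Algebra.norm ℤ a + Algebra.norm ℤ b = -(Algebra.norm ℤ a - Algebra.norm ℤ b) := by
        ring
      rw [e, dvd_neg]
      exact h1
    · refine Or.inl ?_
      have e : -Algebra.norm ℤ a - -Algebra.norm ℤ b =
          -(Algebra.norm ℤ a - Algebra.norm ℤ b) := by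
        ring
      rw [e, dvd_neg]
      exact h1
  rcases h6 with h6 | h6
  · exact Or.inl ((hqp.dvd_or_dvd h6).resolve_left h5)
  · exact Or.inr ((hqp.dvd_or_dvd h6).resolve_left h5)

end Pool.Agent.H3.CV
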